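import Pool.Agent.H21.L.R_seed8.W187.UR.Stm

/-! The contour integral of the rotated logarithm. -/

set_option autoImplicit false

namespace Pool.Agent.W351.UR

open Complex MeasureTheory Filter Topology Set
open scoped Interval
open Pool.Agent.W189.ML Pool.Agent.W189.LC Pool.Agent.W187.UR

/-- the difference quotient -/
noncomputable def qz (z : ℂ) (t : ℝ) : ℂ := (exp (-(t : ℂ)) - exp (-(z * t))) / t

/-- its contour integral -/
noncomputable def cq (γ t : ℝ) : ℂ :=
  (exp (-(t : ℂ)) - exp ((γ * t : ℝ) * I) * ((Real.Gamma (1 + t))⁻¹ : ℝ)) / t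

theorem re_rot (γ : ℝ) (z : ℂ) : (z - γ * I).re = z.re := by simp

theorem one_le_re {γ : ℝ} {z : ℂ} (hz : z ∈ HS 1) : 1 ≤ (z - γ * I).re := by
  rw [re_rot]; exact hz.1

theorem norm_rot_le {γ : ℝ} {z : ℂ} (hz : z ∈ HS 1) : ‖z - γ * I - 1‖ ≤ (1 + |γ|) * (4 + z.re) := by
  have h1 := norm_sub_one_le hz
  have h2 : ‖z - γ * I - 1‖ ≤ ‖z - 1‖ + |γ| := by
    have e : z - γ * I - 1 = (z - 1) - γ * I := by ring
    rw [e]
    refine (norm_sub_le _ _).trans (le_of_eq ?_)
    simp
  have h3 := hz.1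
  have h4 := abs_nonneg γ
  nlinarith

theorem qz_le {γ : ℝ} {z : ℂ} (hz : z ∈ HS 1) {t : ℝ} (ht : 0 < t) :
    ‖qz (z - γ * I) t‖ ≤ (1 + |γ|) * (4 + z.re) :=
  (quot_le (one_le_re hz) ht).trans (norm_rot_le hz)

theorem J_qz (γ : ℝ) {t : ℝ} (ht : 0 ≤ t) : J 1 (fun z => qz (z - γ * I) t) = cq γ t := by
  have e1 : (fun z : ℂ => qz (z - γ * I) t) =
      fun z => (t : ℂ)⁻¹ * (exp (-(t : ℂ)) * exp (-(z * ((0 : ℝ) : ℂ))) -
        exp ((γ * t : ℝ) * I) * exp (-(z * t))) := by
    funext z
    have e2 : exp (-((z - γ * I) * t)) = exp ((γ * t : ℝ) * I) * exp (-(z * t)) := by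
      rw [← Complex.exp_add]
      congr 1
      push_cast
      ring
    unfold qz
    rw [e2]
    simp
    ring
  have n1 : ‖exp ((γ * t : ℝ) * I)‖ = 1 := Complex.norm_exp_ofReal_mul_I _
  rw [e1, J_const_mul, J_sub zero_le_one, J_const_mul, J_const_mul, J_exp_zero, J_exp]
  · unfold cq
    push_cast
    ring
  · refine ⟨by fun_prop, Real.exp (-t), 0, (Real.exp_pos _).le, le_rfl, fun z hz => ?_⟩
    rw [norm_mul, Complex.norm_exp, Complex.norm_exp]
    simp
  · refine ⟨by fun_prop, 1, 0, zero_le_one, le_rfl, fun z hz => ?_⟩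
    rw [norm_mul, n1, one_mul, Complex.norm_exp, zero_mul, add_zero]
    apply Real.exp_le_one_iff.2
    have : (-(z * t)).re = -(z.re * t) := by rw [Complex.neg_re, Complex.re_mul_ofReal]
    rw [this]
    have := hz.1
    have : 0 ≤ z.re * t := by positivity
    linarith

theorem cq_bound (γ : ℝ) {t : ℝ} (ht : 0 < t) :
    ‖cq γ t‖ ≤ (Real.exp (Real.exp 1) + 1) * (1 + |γ|) * 20 * Real.exp (-t) := by
  have hE : 1 ≤ Real.exp (Real.exp 1) := Real.one_le_exp (Real.exp_pos _).le
  have hM : 1 ≤ 1 + |γ| := by have := abs_nonneg γ; linarith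
  set M := 1 + |γ| with hMdef
  set E := Real.exp (Real.exp 1) + 1 with hEdef
  have hEM : 0 < E * M := by positivity
  by_cases h : t ≤ 1
  · have h1 := norm_J_lin (Φ := fun z => qz (z - γ * I) t) (M := M) (by linarith)
      (fun z hz => qz_le hz ht)
    rw [J_qz γ ht.le] at h1
    have h2 : (1 : ℝ) / 4 ≤ Real.exp (-t) := by
      have h3 : Real.exp 1 < 4 := by
        have := Real.exp_one_lt_d9
        linarith
      have h4 : Real.exp (-1) ≤ Real.exp (-t) := Real.exp_le_exp.2 (by linarith)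
      refine le_trans ?_ h4
      rw [Real.exp_neg, one_div]
      exact inv_anti₀ (Real.exp_pos _) h3.le
    have h5 : E * M * 20 * (1 / 4) ≤ E * M * 20 * Real.exp (-t) :=
      mul_le_mul_of_nonneg_left h2 (by positivity)
    have h6 : (Real.exp (Real.exp 1) + 1) * (M * 5) = E * M * 20 * (1 / 4) := by
      rw [hEdef]; ring
    rw [h6] at h1
    exact h1.trans h5
  · push Not at h
    have h1 := om_le (a := 1) (v := t) zero_le_one ht.le
    have h2 := om_nonneg (v := t) ht.le
    unfold om at h1 h2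
    rw [one_mul] at h1
    have h3 := Real.exp_pos (-t)
    unfold cq
    rw [norm_div, Complex.norm_real, Real.norm_eq_abs, abs_of_pos ht, div_le_iff₀ ht]
    have h4 : ‖exp (-(t : ℂ)) - exp ((γ * t : ℝ) * I) * ((Real.Gamma (1 + t))⁻¹ : ℝ)‖ ≤
        Real.exp (-t) + (Real.Gamma (1 + t))⁻¹ := by
      refine (norm_sub_le _ _).trans ?_
      rw [norm_mul, Complex.norm_exp_ofReal_mul_I, one_mul, Complex.norm_real, Real.norm_eq_abs,
        abs_of_nonneg h2, Complex.norm_exp]
      simp
    refine h4.trans ?_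
    have h5 : Real.exp (-t) + (Real.Gamma (1 + t))⁻¹ ≤ 2 * E * Real.exp (-t) := by
      have : 1 * Real.exp (-t) ≤ E * Real.exp (-t) := by
        gcongr
        rw [hEdef]; linarith
      rw [hEdef] at *
      linarith
    refine h5.trans ?_
    have h6 : 2 * E * Real.exp (-t) = E * 1 * 2 * Real.exp (-t) * 1 := by ring
    rw [h6]
    have hE0 : 0 < E := by positivity
    have h7 : E * 1 * 2 * Real.exp (-t) ≤ E * M * 20 * Real.exp (-t) := by
      have h8 : E * 1 * 2 ≤ E * M * 20 := by
        have : E * 1 ≤ E * M := mul_le_mul_of_nonneg_left hM hE0.le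
        nlinarith
      exact mul_le_mul_of_nonneg_right h8 h3.le
    exact mul_le_mul h7 h.le zero_le_one (by positivity)

theorem cq_meas (γ : ℝ) : AEStronglyMeasurable (cq γ) (volume.restrict (Ioi 0)) := by
  refine ContinuousOn.aestronglyMeasurable ?_ measurableSet_Ioi
  intro u hu
  have hu' : (0 : ℝ) < u := hu
  have h1 := Real.Gamma_pos_of_pos (by linarith : 0 < 1 + u)
  have h2 : ContinuousAt Real.Gamma (1 + u) := by
    refine (Real.differentiableAt_Gamma fun m => ?_).continuousAt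
    have : (0 : ℝ) ≤ m := m.cast_nonneg
    linarith
  have h3 : ContinuousAt (fun u : ℝ => Real.Gamma (1 + u)) u :=
    ContinuousAt.comp (f := fun u : ℝ => 1 + u) (g := Real.Gamma) h2 (by fun_prop)
  have h4 : ContinuousAt (fun u : ℝ => (((Real.Gamma (1 + u))⁻¹ : ℝ) : ℂ)) u :=
    Complex.continuous_ofReal.continuousAt.comp (h3.inv₀ h1.ne')
  refine ContinuousAt.continuousWithinAt ?_
  unfold cq
  refine ContinuousAt.div (ContinuousAt.sub (by fun_prop) (ContinuousAt.mul (by fun_prop) h4))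
    (by fun_prop) ?_
  exact_mod_cast hu'.ne'

theorem cq_int (γ : ℝ) : IntegrableOn (cq γ) (Ioi 0) := by
  refine Integrable.mono' ((integrableOn_exp_neg_Ioi 0).const_mul
    ((Real.exp (Real.exp 1) + 1) * (1 + |γ|) * 20)) (cq_meas γ) ?_
  filter_upwards [ae_restrict_mem measurableSet_Ioi] with u hu
  exact cq_bound γ hu

theorem qz_far {ε : ℝ} (hε : 0 < ε) {z : ℂ} (hz : 1 ≤ z.re) {t : ℝ} (ht : ε < t) :
    ‖qz z t‖ ≤ (2 / ε) * Real.exp (-t) := by
  have ht0 : 0 < t := by linarith
  unfold qz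
  rw [norm_div, Complex.norm_real, Real.norm_eq_abs, abs_of_pos ht0]
  have h1 : ‖exp (-(t : ℂ)) - exp (-(z * t))‖ ≤ 2 * Real.exp (-t) := by
    refine (norm_sub_le _ _).trans ?_
    rw [Complex.norm_exp, Complex.norm_exp]
    have h2 : (-(z * t)).re = -(z.re * t) := by rw [Complex.neg_re, Complex.re_mul_ofReal]
    have h3 : (-(t : ℂ)).re = -t := by simp
    rw [h2, h3]
    have h4 : Real.exp (-(z.re * t)) ≤ Real.exp (-t) := by
      apply Real.exp_le_exp.2
      nlinarith
    linarith
  calc _ ≤ (2 * Real.exp (-t)) / t := by gcongr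
    _ ≤ (2 * Real.exp (-t)) / ε := by
      gcongr
    _ = _ := by ring

/-- the truncated integral -/
theorem J_trunc' (γ : ℝ) {ε : ℝ} (hε : 0 < ε) :
    J 1 (fun z => ∫ t in Ioi ε, qz (z - γ * I) t) = ∫ t in Ioi ε, cq γ t := by
  have i2 : Integrable (fun v : ℝ => Real.exp (-v)) (volume.restrict (Ioi ε)) :=
    integrableOn_exp_neg_Ioi ε
  have e1 := J_swap (a := 1) zero_le_one (μ := volume.restrict (Ioi ε))
    (F := fun t z => if ε < t then qz (z - γ * I) t else 0)
    (g := fun t => (2 / ε) * Real.exp (-t)) (i2.const_mul _) ?_ ?_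
  · have e2 : ∀ z : ℂ, ∫ t in Ioi ε, (if ε < t then qz (z - γ * I) t else 0) =
        ∫ t in Ioi ε, qz (z - γ * I) t := fun z =>
      setIntegral_congr_fun measurableSet_Ioi fun t ht => if_pos ht
    simp only [e2] at e1
    rw [e1]
    refine setIntegral_congr_fun measurableSet_Ioi fun t ht => ?_
    have ht' : ε < t := ht
    simp only [if_pos ht']
    exact J_qz γ (by linarith)
  · refine Measurable.stronglyMeasurable ?_
    unfold Function.uncurry qz
    refine Measurable.ite ?_ ?_ measurable_const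
    · exact measurableSet_lt measurable_const measurable_fst
    · fun_prop
  · intro t z hz
    by_cases ht : ε < t
    · rw [if_pos ht]
      exact qz_far hε (one_le_re hz) ht
    · rw [if_neg ht, norm_zero]
      positivity

theorem adm_logr (γ : ℝ) : Adm 1 (fun z => log (z - γ * I)) := by
  refine ⟨?_, 7 + |γ|, 1, by positivity, by norm_num, ?_⟩
  · intro z hz
    have h1 : ContinuousAt log (z - γ * I) := by
      refine continuousAt_clog ?_
      left
      have := one_le_re (γ := γ) hz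
      linarith
    exact (ContinuousAt.comp (f := fun z : ℂ => z - γ * I) (g := log) h1
      (by fun_prop)).continuousWithinAt
  · intro z hz
    refine (norm_log_le (one_le_re hz)).trans ?_
    have h4 : ‖z - γ * I‖ ≤ ‖z‖ + |γ| := by
      refine (norm_sub_le _ _).trans (le_of_eq ?_)
      simp
    have h5 := Complex.norm_le_abs_re_add_abs_im z
    rw [abs_of_nonneg (by have := hz.1; linarith : 0 ≤ z.re)] at h5
    have h6 := hz.2
    have := Real.pi_lt_four
    linarith

theorem J_logr (γ : ℝ) : J 1 (fun z => log (z - γ * I)) = ∫ t in Ioi (0 : ℝ), cq γ t := by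
  set kc : ℂ := ∫ t in Ioi (0 : ℝ), cq γ t with hkc
  set Jl : ℂ := J 1 (fun z => log (z - γ * I)) with hJl
  have hM : 0 ≤ 1 + |γ| := by positivity
  set M := 1 + |γ| with hMdef
  have key : ∀ ε : ℝ, 0 < ε → ‖Jl - kc‖ ≤ (Real.exp (Real.exp 1) + 1) * M * 25 * ε := by
    intro ε hε
    set Φ : ℂ → ℂ := fun z => ∫ t in Ioi ε, qz (z - γ * I) t with hΦ
    have hci : ∀ {z : ℂ}, z ∈ HS 1 → IntegrableOn (fun t : ℝ => qz (z - γ * I) t) (Ioi 0) :=
      fun hz => cquot_int (one_le_re hz)
    have hsplit : ∀ z ∈ HS 1, log (z - γ * I) - Φ z = ∫ t in Ioc 0 ε, qz (z - γ * I) t := by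
      intro z hz
      have hf : log (z - γ * I) = ∫ t in Ioi (0 : ℝ), qz (z - γ * I) t := frullani2 (one_le_re hz)
      rw [hf, hΦ]
      simp only
      have h1 : Ioi (0 : ℝ) = Ioc 0 ε ∪ Ioi ε := (Ioc_union_Ioi_eq_Ioi hε.le).symm
      rw [h1, setIntegral_union (by
        rw [Set.disjoint_left]
        intro x hx hx2
        exact absurd hx.2 (not_le.2 hx2)) measurableSet_Ioi
        ((hci hz).mono_set Ioc_subset_Ioi_self)
        ((hci hz).mono_set (Ioi_subset_Ioi hε.le))]
      ring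
    have hsmall : ∀ z ∈ HS 1, ‖log (z - γ * I) - Φ z‖ ≤ (M * ε) * (4 + z.re) := by
      intro z hz
      rw [hsplit z hz]
      have h1 : ‖∫ t in Ioc 0 ε, qz (z - γ * I) t‖ ≤
          (M * (4 + z.re)) * volume.real (Ioc 0 ε) := by
        refine norm_setIntegral_le_of_norm_le_const (by simp) fun t ht => ?_
        exact qz_le hz ht.1
      rw [Real.volume_real_Ioc_of_le hε.le, sub_zero] at h1
      linarith
    have hcont : ContinuousOn Φ (HS 1) := by
      refine continuousOn_of_dominated (bound := fun t => (2 / ε) * Real.exp (-t)) ?_ ?_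
        ((integrableOn_exp_neg_Ioi ε).const_mul _) ?_
      · intro z hz
        exact ((hci hz).mono_set (Ioi_subset_Ioi hε.le)).aestronglyMeasurable
      · intro z hz
        filter_upwards [ae_restrict_mem measurableSet_Ioi] with t ht
        exact qz_far hε (one_le_re hz) ht
      · filter_upwards [ae_restrict_mem measurableSet_Ioi] with t ht
        unfold qz
        fun_prop
    have admΦ : Adm 1 Φ := by
      obtain ⟨A, B, hA, hB, h1⟩ := (adm_logr γ).bound
      refine ⟨hcont, A + M * ε * 4, B + M * ε, by positivity, by positivity, fun z hz => ?_⟩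
      have h2 := h1 z hz
      have h3 := hsmall z hz
      have h4 : ‖Φ z‖ ≤ ‖log (z - γ * I)‖ + ‖log (z - γ * I) - Φ z‖ := by
        have := norm_sub_le (log (z - γ * I)) (log (z - γ * I) - Φ z)
        rwa [sub_sub_cancel] at this
      linarith
    have h1 : Jl - J 1 Φ = J 1 (fun z => log (z - γ * I) - Φ z) :=
      (J_sub zero_le_one (adm_logr γ) admΦ).symm
    have h2 := norm_J_lin (Φ := fun z => log (z - γ * I) - Φ z) (by positivity : 0 ≤ M * ε) hsmall
    rw [← h1, hΦ, J_trunc' γ hε] at h2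
    have h3 : ‖(∫ t in Ioi ε, cq γ t) - kc‖ ≤
        (Real.exp (Real.exp 1) + 1) * M * 20 * ε := by
      rw [norm_sub_rev]
      have h4 : kc - (∫ t in Ioi ε, cq γ t) = ∫ t in Ioc 0 ε, cq γ t := by
        rw [hkc]
        have h5 : Ioi (0 : ℝ) = Ioc 0 ε ∪ Ioi ε := (Ioc_union_Ioi_eq_Ioi hε.le).symm
        rw [h5, setIntegral_union (by
          rw [Set.disjoint_left]
          intro x hx hx2
          exact absurd hx.2 (not_le.2 hx2)) measurableSet_Ioi
          ((cq_int γ).mono_set Ioc_subset_Ioi_self)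
          ((cq_int γ).mono_set (Ioi_subset_Ioi hε.le))]
        ring
      rw [h4]
      have h6 : ‖∫ t in Ioc 0 ε, cq γ t‖ ≤
          ((Real.exp (Real.exp 1) + 1) * M * 20) * volume.real (Ioc 0 ε) := by
        refine norm_setIntegral_le_of_norm_le_const (by simp) fun t ht => ?_
        refine (cq_bound γ ht.1).trans ?_
        have : Real.exp (-t) ≤ 1 := Real.exp_le_one_iff.2 (by linarith [ht.1])
        exact mul_le_of_le_one_right (by positivity) this
      rw [Real.volume_real_Ioc_of_le hε.le, sub_zero] at h6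
      exact h6
    have h7 : Jl - kc = (Jl - ∫ t in Ioi ε, cq γ t) + ((∫ t in Ioi ε, cq γ t) - kc) := by ring
    rw [h7]
    refine (norm_add_le _ _).trans ?_
    linarith
  have h0 : ‖Jl - kc‖ = 0 := by
    by_contra hne
    have hpos : 0 < ‖Jl - kc‖ := lt_of_le_of_ne (norm_nonneg _) (Ne.symm hne)
    have hM1 : 0 < M := by have := abs_nonneg γ; rw [hMdef]; linarith
    set C := (Real.exp (Real.exp 1) + 1) * M * 25 with hC
    have hC0 : 0 < C := by positivity
    have := key (‖Jl - kc‖ / (2 * C)) (by positivity)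
    have h1 : C * (‖Jl - kc‖ / (2 * C)) = ‖Jl - kc‖ / 2 := by field_simp
    rw [h1] at this
    linarith
  exact sub_eq_zero.1 (norm_eq_zero.1 h0)

theorem kap_eq : S_KAP := by
  intro γ
  rw [J_logr]
  have h1 : (∫ t in Ioi (0 : ℝ), cq γ t).re = ∫ t in Ioi (0 : ℝ), (cq γ t).re :=
    (Complex.reCLM.integral_comp_comm (cq_int γ)).symm
  rw [h1]
  unfold kapr
  refine setIntegral_congr_fun measurableSet_Ioi fun t _ => ?_
  simp only [cq]
  rw [Complex.div_ofReal_re, Complex.sub_re, Complex.re_mul_ofReal,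
    Complex.exp_ofReal_mul_I_re]
  congr 2
  rw [← Complex.ofReal_neg, Complex.exp_ofReal_re]

end Pool.Agent.W351.UR
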